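import Mathlib
import Pool.Agent.H20.Pair3

set_option autoImplicit false

namespace Pool.Agent.Results.MP_7e7d68_co.Order

open Finset Pool.Agent.H20.Pair

/-- A bipartite graph with sides `A = Fin (2 * n)` and `B = Fin m` is given by the neighbourhoods
`G a ⊆ B` of the vertices `a ∈ A`.  Pairing property: for every split of `A` into the `n` pairs
`{e (inl s), e (inr s)}` there are pairwise distinct common neighbours `k s`. -/
def Pairing (n m : ℕ) (G : Fin (2 * n) → Finset (Fin m)) : Prop :=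
  ∀ e : Fin n ⊕ Fin n ≃ Fin (2 * n), ∃ k : Fin n → Fin m, Function.Injective k ∧
    ∀ s, k s ∈ G (e (Sum.inl s)) ∧ k s ∈ G (e (Sum.inr s))

/-- the maximum degree among the vertices of `A` -/
def maxDeg {n m : ℕ} (G : Fin (2 * n) → Finset (Fin m)) : ℕ := univ.sup fun a => (G a).card

/-- `λ(n, m)` -/
noncomputable def lamM (n m : ℕ) : ℕ :=
  sInf {d | ∃ G : Fin (2 * n) → Finset (Fin m), Pairing n m G ∧ maxDeg G = d}

/-- `λ(n)` -/
noncomputable def lam (n : ℕ) : ℕ := sInf {d | ∃ m, n ≤ m ∧ lamM n m = d}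

lemma attained (n : ℕ) :
    ∃ m, ∃ G : Fin (2 * n) → Finset (Fin m), Pairing n m G ∧ maxDeg G = lam n := by
  obtain ⟨m, hm, h⟩ : lam n ∈ {d | ∃ m, n ≤ m ∧ lamM n m = d} :=
    Nat.sInf_mem ⟨_, n, le_rfl, rfl⟩
  obtain ⟨G, h1, h2⟩ : lamM n m ∈
      {d | ∃ G : Fin (2 * n) → Finset (Fin m), Pairing n m G ∧ maxDeg G = d} :=
    Nat.sInf_mem ⟨_, fun _ => univ, fun _ => ⟨Fin.castLE hm, Fin.castLE_injective hm,
      fun _ => ⟨mem_univ _, mem_univ _⟩⟩, rfl⟩
  exact ⟨m, G, h1, h2.trans h⟩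

lemma lam_le {n m : ℕ} (hm : n ≤ m) {G : Fin (2 * n) → Finset (Fin m)} (h : Pairing n m G) :
    lam n ≤ maxDeg G :=
  (Nat.sInf_le ⟨m, hm, rfl⟩ : lam n ≤ lamM n m).trans (Nat.sInf_le ⟨G, h, rfl⟩)

lemma root {n : ℕ} (hn : 12 ^ 12 ≤ n) : ∃ y : ℝ, 12 ≤ y ∧ (n : ℝ) = y ^ 12 ∧
    Real.log n = 12 * Real.log y ∧ 1 ≤ Real.log n ∧ Real.log n ≤ y ^ 2 := by
  have h0 : (0 : ℝ) ≤ n := by positivity
  have h1 : (((n : ℝ) ^ ((12 : ℕ) : ℝ)⁻¹) ^ 12) = n := Real.rpow_inv_natCast_pow h0 (by norm_num)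
  have hy0 : 0 ≤ (n : ℝ) ^ ((12 : ℕ) : ℝ)⁻¹ := by positivity
  generalize (n : ℝ) ^ ((12 : ℕ) : ℝ)⁻¹ = y at h1 hy0
  have h2 : (12 : ℝ) ^ 12 ≤ n := by exact_mod_cast hn
  have h3 : 12 ≤ y := by
    rw [← h1] at h2
    exact le_of_pow_le_pow_left₀ (by norm_num) hy0 h2
  have h4 : Real.log n = 12 * Real.log y := by rw [← h1, Real.log_pow]; norm_num
  have h5 := Real.log_le_sub_one_of_pos (by linarith : 0 < y)
  have h6 := Real.one_sub_inv_le_log_of_pos (by linarith : 0 < y)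
  have h7 : y⁻¹ ≤ 12⁻¹ := inv_anti₀ (by norm_num) h3
  refine ⟨y, h3, h1.symm, h4, by rw [h4]; linarith, by rw [h4]; nlinarith⟩

lemma lower {n : ℕ} (hn : 12 ^ 12 ≤ n) : √(n * Real.log n) / 46 ≤ lam n := by
  obtain ⟨y, hy, e1, e2, l1, l2⟩ := root hn
  obtain ⟨m, G, hG, hd⟩ := attained n
  have hn0 : 0 < n := lt_of_lt_of_le (by norm_num) hn
  let e0 : Fin n ⊕ Fin n ≃ Fin (2 * n) := finSumFinEquiv.trans (finCongr (two_mul n).symm)
  have hdeg : ∀ a, ((G a).card : ℝ) ≤ lam n := fun a => by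
    rw [← hd]
    exact_mod_cast le_sup (f := fun a => (G a).card) (mem_univ a)
  have hpos : (0 : ℝ) < lam n := by
    obtain ⟨k, -, hk⟩ := hG e0
    have h1 : 0 < (G (e0 (Sum.inl ⟨0, hn0⟩))).card := card_pos.2 ⟨_, (hk _).1⟩
    exact lt_of_lt_of_le (by exact_mod_cast h1) (hdeg _)
  by_contra hc
  push Not at hc
  have hy0 : 0 < y := by linarith
  have hE : Real.exp (Real.log n / 4) = y ^ 3 := by
    rw [e2, show 12 * Real.log y / 4 = ((3 : ℕ) : ℝ) * Real.log y by push_cast; ring,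
      Real.exp_nat_mul, Real.exp_log hy0]
  have hnL : 0 ≤ (n : ℝ) * Real.log n := by positivity
  have hs2 := Real.sq_sqrt hnL
  have hs0 := Real.sqrt_nonneg ((n : ℝ) * Real.log n)
  have hs7 : √(n * Real.log n) ≤ y ^ 7 := by
    refine Real.sqrt_le_iff.2 ⟨by positivity, ?_⟩
    calc (n : ℝ) * Real.log n ≤ n * y ^ 2 := mul_le_mul_of_nonneg_left l2 (by positivity)
      _ = (y ^ 7) ^ 2 := by rw [e1]; ring
  have key := core (L := fun u => G (e0 (Sum.inl u))) (R := fun v => G (e0 (Sum.inr v))) hn0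
    (fun σ => hG ((Equiv.sumCongr (Equiv.refl _) σ).trans e0)) (d := lam n)
    (T := Real.log n / 4) hpos (by linarith) (fun u => hdeg _) (fun u => hdeg _) (by
      rw [hE, e1]
      have : y ^ 3 ≤ y ^ 12 := pow_le_pow_right₀ (by linarith) (by norm_num)
      have : 0 ≤ y ^ 12 := by positivity
      linarith) (by
      rw [hE]
      have a1 : (lam n : ℝ) ≤ y ^ 7 / 46 := by linarith
      have a2 : Real.log n / 4 * (128 * lam n) ≤ y ^ 2 / 4 * (128 * (y ^ 7 / 46)) :=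
        mul_le_mul (by linarith) (by linarith) (by positivity) (by positivity)
      have a3 := mul_le_mul_of_nonneg_right a2 (by positivity : 0 ≤ y ^ 3)
      have a4 : y ^ 2 / 4 * (128 * (y ^ 7 / 46)) * y ^ 3 = 32 / 46 * y ^ 12 := by ring
      have : 0 ≤ y ^ 12 := by positivity
      linarith)
  have a5 : (lam n : ℝ) ^ 2 ≤ (√(n * Real.log n) / 46) ^ 2 := pow_le_pow_left₀ hpos.le hc.le 2
  rw [div_pow, hs2] at a5
  linarith

lemma upper' {n : ℕ} (hn : 12 ^ 12 ≤ n) : (lam n : ℝ) ≤ 10 * √(n * Real.log n) := by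
  obtain ⟨y, hy, e1, -, l1, l2⟩ := root hn
  have h32 : (32 : ℝ) ≤ n := by exact_mod_cast le_trans (by norm_num) hn
  have hn0 : (0 : ℝ) < n := by linarith
  have hnL : 0 ≤ (n : ℝ) * Real.log n := by positivity
  have hs2 := Real.sq_sqrt hnL
  have hs0 := Real.sqrt_nonneg ((n : ℝ) * Real.log n)
  have h4L : 4 * Real.log n ≤ n := by
    have a1 : y ^ 4 ≤ y ^ 12 := pow_le_pow_right₀ (by linarith) (by norm_num)
    have a3 : 4 ≤ y ^ 2 := by nlinarith
    have a2 : 4 * y ^ 2 ≤ y ^ 4 := by nlinarith [mul_le_mul_of_nonneg_right a3 (sq_nonneg y)]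
    linarith
  generalize √(n * Real.log n) = s at hs2 hs0 ⊢
  have a1 : 2 * s ≤ n := by
    refine le_of_pow_le_pow_left₀ (n := 2) (by norm_num) hn0.le ?_
    nlinarith
  have a2 : 2 * Real.log n ≤ s := by
    refine le_of_pow_le_pow_left₀ (n := 2) (by norm_num) hs0 ?_
    nlinarith
  obtain ⟨G, h1, h2⟩ := upper (A := Fin (2 * n)) (B := Fin (2 * n)) (n := n) (by simp) (by simp)
    (q := 2 * s / n) (D := Real.exp (5 * s)) (by positivity) ((div_le_one hn0).2 a1) (by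
      have b1 : (2 * s / n) ^ 2 * n = ((4 : ℕ) : ℝ) * Real.log n := by
        rw [div_pow, mul_pow, hs2]; push_cast; field_simp; ring
      rw [b1, Real.exp_neg, Real.exp_nat_mul, Real.exp_log hn0, mul_inv_le_iff₀ (by positivity)]
      have : 0 ≤ (n : ℝ) ^ 3 := by positivity
      nlinarith) (Real.exp_pos _) (by
      have b1 : 2 * n * (2 * s / n) = 4 * s := by field_simp; ring
      have b2 : Real.exp (((2 : ℕ) : ℝ) * Real.log n) ≤ Real.exp s :=
        Real.exp_le_exp.2 (by push_cast; linarith)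
      rw [Real.exp_nat_mul, Real.exp_log hn0] at b2
      rw [b1, show 5 * s = s + 4 * s by ring, Real.exp_add]
      exact mul_le_mul_of_nonneg_right (by nlinarith) (Real.exp_pos _).le)
  have h3 : lam n ≤ maxDeg G := lam_le (by omega) fun e => h2 e e.injective
  have h4 : maxDeg G ≤ ⌊10 * s⌋₊ := Finset.sup_le fun a _ => Nat.le_floor (by
    have b1 := Real.log_le_log (by positivity) (h1 a).le
    rw [Real.log_pow, Real.log_exp] at b1
    have b2 := Real.log_two_gt_d9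
    have b3 : (0 : ℝ) ≤ (G a).card := by positivity
    nlinarith)
  have h5 : (lam n : ℝ) ≤ (⌊10 * s⌋₊ : ℕ) := by exact_mod_cast h3.trans h4
  exact h5.trans (Nat.floor_le (by positivity))

/-- `λ(n)` has order of growth `√(n log n)`. -/
theorem result : ∀ n : ℕ, 12 ^ 12 ≤ n →
    √(n * Real.log n) / 46 ≤ (lam n : ℝ) ∧ (lam n : ℝ) ≤ 10 * √(n * Real.log n) :=
  fun _ hn => ⟨lower hn, upper' hn⟩

end Pool.Agent.Results.MP_7e7d68_co.Order
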